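import Mathlib

set_option autoImplicit false

namespace Pool.Agent.H.MP_6ff61e_lc

open Filter Topology Metric Set

def cnt : ℕ → ℤ → ℕ
  | 0, _ => 0
  | p + 1, z => if z % 2 = 1 then 0 else cnt p (z / 2) + 1

noncomputable def rad (ρ : ℕ → ℝ) : ℕ → ℤ → ℝ
  | 0, _ => 1
  | p + 1, z => if z % 2 = 1 then min (rad ρ p (z / 2) / 2) (ρ (cnt p (z / 2))) else rad ρ p (z / 2)

noncomputable def ctr {E : Type} [Zero E] (ρ : ℕ → ℝ) (mv : ℕ → ℝ → E → E) : ℕ → ℤ → E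
  | 0, _ => 0
  | p + 1, z => if z % 2 = 1 then mv (cnt p (z / 2)) (rad ρ p (z / 2)) (ctr ρ mv p (z / 2))
      else ctr ρ mv p (z / 2)

theorem rad_pos {ρ : ℕ → ℝ} (h : ∀ e, 0 < ρ e) (p : ℕ) : ∀ z, 0 < rad ρ p z := by
  induction p with
  | zero => intro z; simp [rad]
  | succ p ih =>
    intro z
    simp only [rad]
    split_ifs
    · exact lt_min (half_pos (ih _)) (h _)
    · exact ih _

theorem zeros (ρ : ℕ → ℝ) (p : ℕ) (z : ℤ) (e : ℕ) :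
    cnt (p + e) (z * 2 ^ e) = cnt p z + e ∧ rad ρ (p + e) (z * 2 ^ e) = rad ρ p z := by
  induction e with
  | zero => simp
  | succ e ih =>
    have h1 : z * 2 ^ (e + 1) % 2 ≠ 1 := by rw [pow_succ, ← mul_assoc]; omega
    have h2 : z * 2 ^ (e + 1) / 2 = z * 2 ^ e := by rw [pow_succ, ← mul_assoc]; omega
    rw [← add_assoc]
    simp only [cnt, rad, if_neg h1, h2, ih.1, ih.2]
    exact ⟨by ring, trivial⟩

theorem fl (p : ℕ) (s : ℝ) : ⌊2 ^ (p + 1) * s⌋ / 2 = ⌊2 ^ p * s⌋ := by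
  have := Int.floor_div_natCast (2 ^ (p + 1) * s) 2
  push_cast at this
  rw [← this]; congr 1; ring

theorem meagre (ρ : ℕ → ℝ) (W : ℝ → ℕ) : IsMeagre {t : ℝ | ¬ ∃ p : ℕ, ⌊2 ^ (p + 1) * t⌋ % 2 = 1 ∧
    cnt p ⌊2 ^ p * t⌋ = W (rad ρ p ⌊2 ^ p * t⌋)} := by
  refine mem_of_superset (residual_of_dense_open isOpen_interior ?_) interior_subset
  rw [Metric.dense_iff]
  intro t ε hε
  obtain ⟨p, hp⟩ := exists_pow_lt_of_lt_one hε (show (1 / 2 : ℝ) < 1 by norm_num)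
  obtain ⟨z, hz⟩ : ∃ z, z = ⌊2 ^ p * t⌋ := ⟨_, rfl⟩
  obtain ⟨e, he⟩ : ∃ e, e = W (rad ρ (p + 1) (2 * z + 1)) := ⟨_, rfl⟩
  obtain ⟨y, hy⟩ : ∃ y : ℤ, y = 2 * ((2 * z + 1) * 2 ^ e) + 1 := ⟨_, rfl⟩
  have P : (0 : ℝ) < 2 ^ (p + 1 + e + 1) := by positivity
  let I : Set ℝ := {s | (y : ℝ) < 2 ^ (p + 1 + e + 1) * s ∧ 2 ^ (p + 1 + e + 1) * s < y + 1}
  have hc : Continuous fun s : ℝ => 2 ^ (p + 1 + e + 1) * s := by fun_prop
  have hI : IsOpen I := (isOpen_lt continuous_const hc).inter (isOpen_lt hc continuous_const)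
  have hs : ((y : ℝ) + 1 / 2) / 2 ^ (p + 1 + e + 1) ∈ I := by
    simp only [I, mem_setOf_eq, mul_div_cancel₀ _ P.ne']
    constructor <;> linarith
  refine ⟨_, ?_, interior_maximal (fun s hs => ?_) hI hs⟩
  · generalize ((y : ℝ) + 1 / 2) / 2 ^ (p + 1 + e + 1) = s at hs
    obtain ⟨h1, h2⟩ := hs
    have a1 := Int.floor_le (2 ^ p * t)
    have a2 := Int.lt_floor_add_one (2 ^ p * t)
    rw [← hz] at a1 a2
    have e1 : (2 : ℝ) ^ (p + 1 + e + 1) * s = 4 * 2 ^ e * (2 ^ p * s) := by ring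
    have e2 : (1 : ℝ) ≤ 2 ^ e := one_le_pow₀ (by norm_num)
    rw [e1, hy] at h1 h2
    push_cast at h1 h2
    have b1 : (z : ℝ) < 2 ^ p * s := by nlinarith
    have b2 : 2 ^ p * s < z + 1 := by nlinarith
    have e3 : (1 / 2 : ℝ) ^ p * 2 ^ p = 1 := by rw [← mul_pow]; norm_num
    have P2 : (0 : ℝ) < 2 ^ p := by positivity
    rw [mem_ball, Real.dist_eq, abs_lt]
    constructor <;> nlinarith
  · have f1 : ⌊2 ^ (p + 1 + e + 1) * s⌋ = y := Int.floor_eq_iff.2 ⟨hs.1.le, hs.2⟩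
    have f2 : ⌊2 ^ (p + 1 + e) * s⌋ = (2 * z + 1) * 2 ^ e := by rw [← fl, f1]; omega
    simp only [mem_compl_iff, mem_setOf_eq, not_not]
    refine ⟨p + 1 + e, by rw [f1]; omega, ?_⟩
    rw [f2, (zeros ρ _ _ e).1, (zeros ρ _ _ e).2, ← he]
    simp [cnt]

theorem code {E : Type} [NormedAddCommGroup E] [ProperSpace E] (ρ : ℕ → ℝ) (hρ : ∀ e, 0 < ρ e)
    (t : ℝ) (mv : ℕ → ℝ → E → E) (hmv : ∀ e r c, 0 < r → dist (mv e r c) c ≤ r / 2) :
    ∃ g : E, ∀ p : ℕ, ⌊2 ^ (p + 1) * t⌋ % 2 = 1 → ∃ c : E, ‖c‖ ≤ 1 ∧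
      dist g (mv (cnt p ⌊2 ^ p * t⌋) (rad ρ p ⌊2 ^ p * t⌋) c) ≤ ρ (cnt p ⌊2 ^ p * t⌋) := by
  let K : ℕ → Set E := fun p => closedBall (ctr ρ mv p ⌊2 ^ p * t⌋) (rad ρ p ⌊2 ^ p * t⌋)
  have hK : ∀ p, K (p + 1) ⊆ K p := by
    intro p
    simp only [K, ctr, rad, fl]
    split_ifs
    · refine closedBall_subset_closedBall' ?_
      have := hmv (cnt p ⌊2 ^ p * t⌋) _ (ctr ρ mv p ⌊2 ^ p * t⌋) (rad_pos hρ p ⌊2 ^ p * t⌋)
      have := min_le_left (rad ρ p ⌊2 ^ p * t⌋ / 2) (ρ (cnt p ⌊2 ^ p * t⌋))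
      linarith
    · exact Subset.rfl
  obtain ⟨g, hg⟩ := IsCompact.nonempty_iInter_of_sequence_nonempty_isCompact_isClosed K hK
    (fun p => nonempty_closedBall.2 (rad_pos hρ _ _).le) (isCompact_closedBall _ _)
    fun p => isClosed_closedBall
  rw [mem_iInter] at hg
  refine ⟨g, fun p hp => ⟨ctr ρ mv p ⌊2 ^ p * t⌋, ?_, ?_⟩⟩
  · have := (antitone_nat_of_succ_le hK) (Nat.zero_le p)
      (mem_closedBall_self (rad_pos hρ p ⌊2 ^ p * t⌋).le)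
    simpa [K, ctr, rad] using this
  · have := hg (p + 1)
    simp only [K, ctr, rad, fl, if_pos hp, mem_closedBall] at this
    exact this.trans (min_le_right _ _)

theorem net {E : Type} [NormedAddCommGroup E] [ProperSpace E] (d : ℕ → E) (hd : DenseRange d)
    {U : Set E} (h1 : IsOpen U) (h2 : Dense U) (R δ a : ℝ) (hδ : 0 < δ) :
    ∃ (L : Finset ℕ) (k : ℕ), (∀ i ∈ L, closedBall (d i) (a * (1 / (k + 1))) ⊆ U) ∧
      ∀ y : E, ‖y‖ ≤ R → ∃ i ∈ L, dist (d i) y ≤ δ := by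
  classical
  obtain ⟨L, hL⟩ := (isCompact_closedBall (0 : E) R).elim_finite_subcover
    (fun i : {i // d i ∈ U} => ball (d i) δ) (fun _ => isOpen_ball) (by
      intro y _
      obtain ⟨i, hi⟩ := hd.exists_mem_open (isOpen_ball.inter h1)
        (h2.inter_open_nonempty _ isOpen_ball ⟨y, mem_ball_self hδ⟩)
      exact mem_iUnion.2 ⟨⟨i, hi.2⟩, mem_ball_comm.1 hi.1⟩)
  have : ∀ᶠ k : ℕ in atTop, ∀ i ∈ L, closedBall (d i) (a * (1 / (k + 1))) ⊆ U := by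
    rw [eventually_all_finset]
    intro i _
    obtain ⟨ε, hε, h⟩ := nhds_basis_closedBall.mem_iff.1 (h1.mem_nhds i.2)
    have ht : Tendsto (fun k : ℕ => a * (1 / ((k : ℝ) + 1))) atTop (𝓝 (a * 0)) :=
      tendsto_one_div_add_atTop_nhds_zero_nat.const_mul a
    filter_upwards [ht.eventually (eventually_le_nhds (by simpa using hε))] with k hk
    exact (closedBall_subset_closedBall hk).trans h
  obtain ⟨k, hk⟩ := this.exists
  refine ⟨L.image Subtype.val, k, fun i hi => ?_, fun y hy => ?_⟩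
  · obtain ⟨j, hj, rfl⟩ := Finset.mem_image.1 hi
    exact hk j hj
  · obtain ⟨j, hj, h⟩ := mem_iUnion₂.1 (hL (mem_closedBall_zero_iff.2 hy))
    exact ⟨j, Finset.mem_image_of_mem _ hj, (mem_ball'.1 h).le⟩

theorem phi {E : Type} [NormedAddCommGroup E] [NormedSpace ℝ E] [ProperSpace E] :
    ∃ Φ : ℝ → (ℕ → E) → E, ∀ B : Set E, IsMeagre B → ∃ M : Set ℝ, IsMeagre M ∧ ∀ t, t ∉ M →
      ∀ (h : ℕ → E) (m : ℚ) (j : ℕ), m ≠ 0 → (m : ℝ) • Φ t h + h j ∉ B := by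
  classical
  obtain ⟨dec, hdec⟩ := exists_surjective_nat (ℚ × ℕ × Finset ℕ × ℕ)
  let d := TopologicalSpace.denseSeq E
  let ρ : ℕ → ℝ := fun e => 1 / ((dec e).2.2.2 + 1)
  have hρ : ∀ e, 0 < ρ e := fun e => by positivity
  let mv : (ℕ → E) → ℕ → ℝ → E → E := fun h e r c =>
    if H : ∃ i ∈ (dec e).2.2.1, dist (((dec e).1 : ℝ)⁻¹ • (d i - h (dec e).2.1)) c ≤ r / 2 then
      ((dec e).1 : ℝ)⁻¹ • (d H.choose - h (dec e).2.1) else c
  have hmv : ∀ h e r c, 0 < r → dist (mv h e r c) c ≤ r / 2 := by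
    intro h e r c hr
    simp only [mv]
    split_ifs with H
    · exact H.choose_spec.2
    · simp; linarith
  choose Φ hΦ using fun t h => code ρ hρ t (mv h) (hmv h)
  refine ⟨Φ, fun B hB => ?_⟩
  obtain ⟨S, S1, S2, S3, S4⟩ := mem_residual_iff.1 hB
  have key : ∀ U ∈ S, ∀ (m : ℚ) (j R : ℕ), ∃ M : Set ℝ, IsMeagre M ∧ ∀ t, t ∉ M → m ≠ 0 →
      ∀ h : ℕ → E, |(m : ℝ)| + ‖h j‖ ≤ R → (m : ℝ) • Φ t h + h j ∈ U := by
    intro U hU m j R
    by_cases hm : m = 0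
    · exact ⟨∅, IsMeagre.empty, fun _ _ h => absurd hm h⟩
    have m0 : (m : ℝ) ≠ 0 := by exact_mod_cast hm
    have m1 : 0 < |(m : ℝ)| := abs_pos.2 m0
    have : ∀ r : ℝ, ∃ e, 0 < r → (dec e).1 = m ∧ (dec e).2.1 = j ∧
        (∀ i ∈ (dec e).2.2.1, closedBall (d i) (|(m : ℝ)| * ρ e) ⊆ U) ∧
        ∀ y : E, ‖y‖ ≤ R → ∃ i ∈ (dec e).2.2.1, dist (d i) y ≤ |(m : ℝ)| * (r / 2) := by
      intro r
      by_cases hr : 0 < r
      · obtain ⟨L, k, h1, h2⟩ := net d (TopologicalSpace.denseRange_denseSeq E) (S1 U hU) (S2 U hU)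
          R (|(m : ℝ)| * (r / 2)) |(m : ℝ)| (by positivity)
        obtain ⟨e, he⟩ := hdec (m, j, L, k)
        exact ⟨e, fun _ => by simp only [ρ, he]; exact ⟨trivial, trivial, h1, h2⟩⟩
      · exact ⟨0, fun h => absurd h hr⟩
    choose W hW using this
    refine ⟨_, meagre ρ W, fun t ht _ h hR => ?_⟩
    simp only [mem_setOf_eq, not_not] at ht
    obtain ⟨p, p1, p2⟩ := ht
    obtain ⟨c, c1, c2⟩ := hΦ t h p p1
    rw [p2] at c2
    obtain ⟨w1, w2, w3, w4⟩ := hW _ (rad_pos hρ p ⌊2 ^ p * t⌋)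
    generalize rad ρ p ⌊2 ^ p * t⌋ = r at *
    generalize W r = e at *
    have ds : ∀ q c : E, dist q ((m : ℝ) • c + h j) =
        |(m : ℝ)| * dist ((m : ℝ)⁻¹ • (q - h j)) c := by
      intro q c
      rw [← Real.norm_eq_abs, ← dist_smul₀, smul_inv_smul₀ m0, dist_eq_norm, dist_eq_norm]
      congr 1; abel
    have H : ∃ i ∈ (dec e).2.2.1,
        dist (((dec e).1 : ℝ)⁻¹ • (d i - h (dec e).2.1)) c ≤ r / 2 := by
      obtain ⟨i, i1, i2⟩ := w4 ((m : ℝ) • c + h j) (by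
        refine (norm_add_le _ _).trans ?_
        rw [norm_smul, Real.norm_eq_abs]
        nlinarith)
      rw [ds] at i2
      exact ⟨i, i1, by rw [w1, w2]; exact le_of_mul_le_mul_left i2 m1⟩
    simp only [mv, dif_pos H] at c2
    refine w3 _ H.choose_spec.1 ?_
    generalize H.choose = i at c2
    rw [mem_closedBall', ds]
    refine mul_le_mul_of_nonneg_left ?_ m1.le
    rw [dist_comm, ← w1, ← w2]
    exact c2
  choose! M hM using key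
  refine ⟨⋃ U ∈ S, ⋃ m, ⋃ j, ⋃ R, M U m j R, isMeagre_biUnion S3 fun U hU =>
    isMeagre_iUnion fun m => isMeagre_iUnion fun j => isMeagre_iUnion fun R => (hM U hU m j R).1,
    fun t ht h m j hm => S4 fun U hU => ?_⟩
  obtain ⟨R, hR⟩ := exists_nat_ge (|(m : ℝ)| + ‖h j‖)
  simp only [mem_iUnion, not_exists] at ht
  exact (hM U hU m j R).2 t (ht U hU m j R) hm h hR

end Pool.Agent.H.MP_6ff61e_lc
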